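import Pool.Agent.H16.ZW.Targets

/-!
Module FTX: points moved by a monomial map as by Frobenius.
-/

set_option autoImplicit false

open MvPolynomial

namespace Pool.Agent.H54.ZW

open Pool.Agent.H16.ZW

section frob

variable {κ : Type} [Field κ] {p : ℕ} [CharP κ p]

theorem frob_one (hp : p.Prime) (h : ∀ a : κ, a ≠ 0 → ∃ n : ℕ, 1 ≤ n ∧ a ^ n = 1) (a : κ) :
    ∃ r : ℕ, 1 ≤ r ∧ a ^ p ^ r = a := by
  have : Fact p.Prime := ⟨hp⟩
  by_cases ha : a = 0
  · refine ⟨1, le_rfl, ?_⟩
    rw [ha, zero_pow]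
    exact pow_ne_zero _ hp.ne_zero
  obtain ⟨n, hn, han⟩ := h a ha
  obtain ⟨s, n', hn', hnn⟩ := Nat.exists_eq_pow_mul_and_not_dvd (n := n) (by omega) p hp.ne_one
  have h1 : a ^ n' = 1 := by
    have h2 : (a ^ n' - 1) ^ p ^ s = 0 := by
      rw [sub_pow_char_pow, one_pow, ← pow_mul, mul_comm, ← hnn, han, sub_self]
    exact sub_eq_zero.1 (pow_eq_zero_iff (pow_ne_zero _ hp.ne_zero) |>.1 h2)
  have hcop : p.Coprime n' := (Nat.Prime.coprime_iff_not_dvd hp).2 hn'
  have hn0 : n' ≠ 0 := by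
    rintro rfl
    exact hn' (dvd_zero _)
  refine ⟨n'.totient, Nat.totient_pos.2 (Nat.pos_of_ne_zero hn0), ?_⟩
  have h3 := Nat.ModEq.pow_totient hcop
  rw [pow_eq_pow_mod (p ^ n'.totient) h1, h3, ← pow_eq_pow_mod 1 h1, pow_one]

omit [CharP κ p] in
theorem frob_mul {a : κ} {r : ℕ} (h : a ^ p ^ r = a) (k : ℕ) : a ^ p ^ (r * k) = a := by
  induction k with
  | zero => simp
  | succ k ih => rw [mul_add, mul_one, pow_add, pow_mul, ih, h]

theorem frob_set (hp : p.Prime) (h : ∀ a : κ, a ≠ 0 → ∃ n : ℕ, 1 ≤ n ∧ a ^ n = 1)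
    (s : Finset κ) : ∃ r : ℕ, 1 ≤ r ∧ ∀ a ∈ s, a ^ p ^ r = a := by
  classical
  induction s using Finset.induction_on with
  | empty => exact ⟨1, le_rfl, by simp⟩
  | insert b s _ ih =>
    obtain ⟨r, hr, h1⟩ := ih
    obtain ⟨r', hr', h2⟩ := frob_one hp h b
    refine ⟨r * r', Nat.mul_pos hr hr', ?_⟩
    intro a ha
    rcases Finset.mem_insert.1 ha with rfl | ha
    · rw [mul_comm]
      exact frob_mul h2 r
    · exact frob_mul (h1 a ha) r'

end frob

theorem mon_ne {F : Type} [Field F] {N : ℕ} {x : Fin N → F} (hx : ∀ i, x i ≠ 0)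
    (e : Fin N → ℤ) : mon x e ≠ 0 := by
  unfold mon
  exact Finset.prod_ne_zero_iff.2 fun i _ => zpow_ne_zero _ (hx i)

theorem mon_single {F : Type} [Field F] {N : ℕ} (x : Fin N → F) (i : Fin N) (a : ℤ) :
    mon x (fun j => if i = j then a else 0) = x i ^ a := by
  unfold mon
  rw [Finset.prod_eq_single i]
  · simp
  · intro j _ hj
    change x j ^ (if i = j then a else 0) = 1
    rw [if_neg hj.symm, zpow_zero]
  · intro h
    exact absurd (Finset.mem_univ i) h

theorem smul_one_apply {N : ℕ} (q : ℤ) (i j : Fin N) :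
    (q • (1 : Matrix (Fin N) (Fin N) ℤ)) i j = if i = j then q else 0 := by
  rw [Matrix.smul_apply, Matrix.one_apply, smul_eq_mul]
  split_ifs
  · rw [mul_one]
  · rw [mul_zero]

theorem roots_card {κ : Type} [Field κ] [IsAlgClosed κ] {D : ℤ} (hD : (D : κ) ≠ 0) {c : κ}
    (hc : c ≠ 0) : ∃ B : Finset κ, B.card = D.natAbs ∧ ∀ t ∈ B, t ≠ 0 ∧ t ^ D = c := by
  classical
  have hD0 : D ≠ 0 := by
    rintro rfl
    simp at hD
  have hn : ((D.natAbs : ℕ) : κ) ≠ 0 := by
    intro h
    apply hD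
    rcases Int.natAbs_eq D with h1 | h1
    · rw [h1, Int.cast_natCast, h]
    · rw [h1, Int.cast_neg, Int.cast_natCast, h, neg_zero]
  have hn1 : 0 < D.natAbs := Int.natAbs_pos.2 hD0
  obtain ⟨a, ha, hac⟩ : ∃ a : κ, a ≠ 0 ∧ ∀ t : κ, t ^ D.natAbs = a → t ^ D = c := by
    rcases Int.natAbs_eq D with h1 | h1
    · refine ⟨c, hc, fun t ht => ?_⟩
      rw [h1, zpow_natCast, ht]
    · refine ⟨c⁻¹, inv_ne_zero hc, fun t ht => ?_⟩
      rw [h1, zpow_neg, zpow_natCast, ht, inv_inv]
  have hpne : (Polynomial.X ^ D.natAbs - Polynomial.C a : Polynomial κ) ≠ 0 :=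
    Polynomial.X_pow_sub_C_ne_zero hn1 a
  refine ⟨(Polynomial.X ^ D.natAbs - Polynomial.C a : Polynomial κ).roots.toFinset, ?_, ?_⟩
  · rw [Multiset.toFinset_card_of_nodup
      (Polynomial.nodup_roots (Polynomial.separable_X_pow_sub_C a hn ha)),
      IsAlgClosed.card_roots_eq_natDegree, Polynomial.natDegree_X_pow_sub_C]
  · intro t ht
    rw [Multiset.mem_toFinset, Polynomial.mem_roots hpne, Polynomial.IsRoot.def,
      Polynomial.eval_sub, Polynomial.eval_pow, Polynomial.eval_X, Polynomial.eval_C,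
      sub_eq_zero] at ht
    refine ⟨?_, hac t ht⟩
    rintro rfl
    rw [zero_pow hn1.ne'] at ht
    exact ha ht.symm

theorem ftx (hG : T_GRD) (hA : T_ADJ) (hM : T_MON) : T_FTX := by
  intro κ _ _ p _ hp hfin N A hdet c hc G hG0
  classical
  have : Fact p.Prime := ⟨hp⟩
  obtain ⟨hM1, -, -, hM4, -, -⟩ := hM N
  -- the Frobenius power
  obtain ⟨r₀, hr₀, hfix⟩ := frob_set hp hfin
    (Finset.univ.image c ∪ G.support.image fun m => coeff m G)
  obtain ⟨M, hMb⟩ : ∃ M : ℕ, ∀ m ∈ G.support, ∀ i, m i ≤ M := by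
    refine ⟨∑ m ∈ G.support, ∑ i, m i, fun m hm i => ?_⟩
    calc m i ≤ ∑ i, m i := Finset.single_le_sum (f := fun i => m i) (fun _ _ => Nat.zero_le _)
          (Finset.mem_univ i)
      _ ≤ _ := Finset.single_le_sum (f := fun m : Fin N →₀ ℕ => ∑ i, m i)
          (fun _ _ => Nat.zero_le _) hm
  obtain ⟨Q₀, hQ₀⟩ := hA N M A
  set r : ℕ := r₀ * (Q₀ + 1) with hr
  have hr1 : 1 ≤ r := Nat.mul_pos hr₀ (Nat.succ_pos _)
  have hQ : Q₀ ≤ p ^ r := by
    have h1 : r < p ^ r := Nat.lt_pow_self hp.one_lt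
    have h2 : Q₀ + 1 ≤ r := by
      rw [hr]
      exact Nat.le_mul_of_pos_left _ hr₀
    omega
  obtain ⟨hdet0, hadj⟩ := hQ₀ (p ^ r) hQ
  set B : Matrix (Fin N) (Fin N) ℤ := ((p ^ r : ℕ) : ℤ) • (1 : Matrix (Fin N) (Fin N) ℤ) - A
    with hB
  set E : Matrix (Fin N) (Fin N) ℤ := B.adjugate with hE
  set D : ℤ := B.det with hD
  have hBE : B * E = D • (1 : Matrix (Fin N) (Fin N) ℤ) := Matrix.mul_adjugate B
  have hEB : E * B = D • (1 : Matrix (Fin N) (Fin N) ℤ) := Matrix.adjugate_mul B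
  have hDκ : (D : κ) ≠ 0 := by
    have h1 : (D : κ) = ((Int.castRingHom κ).mapMatrix B).det := by
      rw [← RingHom.map_det]
      rfl
    have h2 : (Int.castRingHom κ).mapMatrix B = -((Int.castRingHom κ).mapMatrix A) := by
      rw [hB, map_sub]
      have h3 : (Int.castRingHom κ).mapMatrix
          (((p ^ r : ℕ) : ℤ) • (1 : Matrix (Fin N) (Fin N) ℤ)) = 0 := by
        ext i j
        have h4 : ((p : κ)) ^ r = 0 := by
          rw [CharP.cast_eq_zero, zero_pow (by omega)]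
        rw [RingHom.mapMatrix_apply, Matrix.map_apply, smul_one_apply, Matrix.zero_apply]
        split_ifs
        · rw [map_natCast, Nat.cast_pow, h4]
        · rw [map_zero]
      rw [h3, zero_sub]
    rw [h1, h2, Matrix.det_neg, ← RingHom.map_det]
    refine mul_ne_zero (pow_ne_zero _ (neg_ne_zero.2 one_ne_zero)) ?_
    intro h
    have h5 : ((A.det : ℤ) : κ) = 0 := h
    exact hdet ((CharP.intCast_eq_zero_iff κ p A.det).1 h5)
  -- the exponent map
  set φ : (Fin N →₀ ℕ) → (Fin N → ℤ) := fun m => Matrix.vecMul (fun i => (m i : ℤ)) E with hφ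
  have hφi : Function.Injective φ := by
    intro m m' h
    have h1 : Matrix.vecMul (φ m) B = Matrix.vecMul (φ m') B := by rw [h]
    simp only [hφ, Matrix.vecMul_vecMul, hEB, Matrix.vecMul_smul, Matrix.vecMul_one] at h1
    ext i
    have h2 := congrFun h1 i
    simp only [Pi.smul_apply, smul_eq_mul] at h2
    exact_mod_cast mul_left_cancel₀ hdet0 h2
  choose Bs hBs1 hBs2 using fun i => roots_card hDκ (hc i)
  set g : (Fin N → ℤ) → κ := Function.extend φ (fun m => coeff m G) 0 with hg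
  have hgφ : ∀ m, g (φ m) = coeff m G := fun m => hφi.extend_apply _ _ _
  have hSne : (G.support.image φ).Nonempty :=
    (Finset.nonempty_iff_ne_empty.2 (fun h => hG0 (support_eq_empty.1 h))).image φ
  obtain ⟨t, ht1, ht2⟩ := hG κ N ((D.natAbs - 1) / 2) (G.support.image φ) g Bs hSne
    (by
      intro e he
      obtain ⟨m, hm, rfl⟩ := Finset.mem_image.1 he
      rw [hgφ]
      exact mem_support_iff.1 hm)
    (by
      intro e he i
      obtain ⟨m, hm, rfl⟩ := Finset.mem_image.1 he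
      have h1 := hadj (fun i => (m i : ℤ)) (fun i => by
        have h2 := hMb m hm i
        rw [abs_of_nonneg (Int.natCast_nonneg _)]
        exact_mod_cast h2) i
      have h3 : 2 * |φ m i| < |D| := h1
      rw [Int.abs_eq_natAbs D] at h3
      generalize |φ m i| = u at h3 ⊢
      omega)
    (fun i x hx => (hBs2 i x hx).1)
    (by
      intro i
      rw [hBs1 i]
      have : 0 < D.natAbs := Int.natAbs_pos.2 hdet0
      omega)
  have htne : ∀ i, t i ≠ 0 := fun i => (hBs2 i _ (ht1 i)).1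
  have htD : ∀ i, t i ^ D = c i := fun i => (hBs2 i _ (ht1 i)).2
  set x : Fin N → κ := fun i => mon t (E i) with hx
  have hxne : ∀ i, x i ≠ 0 := fun i => mon_ne htne _
  have hxB : ∀ i, mon x (B i) = c i := by
    intro i
    have h1 : mon x (B i) = mon t (Matrix.vecMul (B i) E) := hM4 κ t E (B i) htne
    have h2 : Matrix.vecMul (B i) E = fun j => if i = j then D else 0 := by
      funext j
      have h3 : Matrix.vecMul (B i) E j = (B * E) i j := rfl
      rw [h3, hBE, smul_one_apply]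
    rw [h1, h2, mon_single, htD]
  refine ⟨x, r, hr1, hxne, ?_, ?_, ?_, ?_⟩
  · intro i
    have h1 := hM1 κ x (B i) (A i) hxne
    have h2 : B i + A i = fun j => if i = j then ((p ^ r : ℕ) : ℤ) else 0 := by
      funext j
      rw [Pi.add_apply, hB, Matrix.sub_apply, smul_one_apply, sub_add_cancel]
    rw [hxB i, h2, mon_single, zpow_natCast] at h1
    exact h1.symm
  · intro i
    exact frob_mul (hfix _ (Finset.mem_union_left _ (Finset.mem_image_of_mem c
      (Finset.mem_univ i)))) _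
  · intro m
    by_cases hm : m ∈ G.support
    · exact frob_mul (hfix _ (Finset.mem_union_right _
        (Finset.mem_image_of_mem (fun m => coeff m G) hm))) _
    · rw [notMem_support_iff.1 hm, zero_pow (pow_ne_zero _ hp.ne_zero)]
  · have h1 : eval x G = ∑ e ∈ G.support.image φ, g e * mon t e := by
      rw [Finset.sum_image (fun _ _ _ _ h => hφi h), eval_eq']
      refine Finset.sum_congr rfl fun m _ => ?_
      rw [hgφ]
      congr 1
      have h2 : mon x (fun i => (m i : ℤ)) = mon t (φ m) :=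
        hM4 κ t E (fun i => (m i : ℤ)) htne
      rw [← h2]
      unfold mon
      exact Finset.prod_congr rfl fun i _ => (zpow_natCast _ _).symm
    rw [h1]
    exact ht2

end Pool.Agent.H54.ZW
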