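import Pool.Agent.H16.ZW.Targets

/-!
Module GRD: Laurent polynomials do not vanish on large grids.
-/

set_option autoImplicit false

open MvPolynomial

namespace Pool.Agent.H54.ZW

open Pool.Agent.H16.ZW

/-- shifted exponent -/
noncomputable def ex {N : ℕ} (M : ℕ) (e : Fin N → ℤ) : Fin N →₀ ℕ :=
  Finsupp.equivFunOnFinite.symm fun i => (e i + M).toNat

theorem ex_apply {N : ℕ} (M : ℕ) (e : Fin N → ℤ) (i : Fin N) : ex M e i = (e i + M).toNat := rfl

theorem ex_inj {N M : ℕ} {e e' : Fin N → ℤ} (he : ∀ i, |e i| ≤ M) (he' : ∀ i, |e' i| ≤ M)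
    (h : ex M e = ex M e') : e = e' := by
  funext i
  have h1 := DFunLike.congr_fun h i
  rw [ex_apply, ex_apply] at h1
  have h2 := abs_le.1 (he i)
  have h3 := abs_le.1 (he' i)
  omega

theorem grd : T_GRD := by
  intro κ _ N M S g B hS hg hM hB0 hB
  classical
  set P : MvPolynomial (Fin N) κ := ∑ e ∈ S, monomial (ex M e) (g e) with hP
  obtain ⟨e₀, he₀⟩ := hS
  have hP0 : P ≠ 0 := by
    intro h
    have h1 : coeff (ex M e₀) P = 0 := by rw [h, coeff_zero]
    rw [hP, coeff_sum, Finset.sum_eq_single_of_mem e₀ he₀] at h1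
    · rw [coeff_monomial, if_pos rfl] at h1
      exact hg e₀ he₀ h1
    · intro e he hne
      rw [coeff_monomial, if_neg]
      exact fun h => hne (ex_inj (hM e he) (hM e₀ he₀) h)
  have hdeg : ∀ i, degreeOf i P < (B i).card := by
    intro i
    refine lt_of_le_of_lt ?_ (hB i)
    rw [degreeOf_le_iff]
    intro m hm
    rw [mem_support_iff, hP, coeff_sum] at hm
    obtain ⟨e, he, h1⟩ := Finset.exists_ne_zero_of_sum_ne_zero hm
    rw [coeff_monomial] at h1
    have h2 : ex M e = m := by
      by_contra h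
      rw [if_neg h] at h1
      exact h1 rfl
    rw [← h2, ex_apply]
    have h3 := abs_le.1 (hM e he i)
    omega
  by_contra hcon
  push Not at hcon
  apply hP0
  refine eq_zero_of_eval_zero_at_prod_finset P B hdeg fun t ht => ?_
  have h1 := hcon t ht
  have h2 : ∀ e ∈ S, eval t (monomial (ex M e) (g e)) = (∏ i, t i ^ M) * (g e * mon t e) := by
    intro e he
    rw [eval_monomial, Finsupp.prod_fintype _ _ (fun i => pow_zero _)]
    have h3 : ∏ i, t i ^ (ex M e i) = (∏ i, t i ^ M) * mon t e := by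
      unfold mon
      rw [← Finset.prod_mul_distrib]
      refine Finset.prod_congr rfl fun i _ => ?_
      have h4 := abs_le.1 (hM e he i)
      have h5 : t i ≠ 0 := hB0 i _ (ht i)
      rw [← zpow_natCast, ← zpow_natCast, ← zpow_add₀ h5, ex_apply]
      congr 1
      omega
    rw [h3]
    ring
  rw [hP, map_sum, Finset.sum_congr rfl h2, ← Finset.mul_sum, h1, mul_zero]

end Pool.Agent.H54.ZW
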